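import Mathlib
import Pool.Agent.Q84.MB.D11

/-!
# Large gaps on both sides of clusters of primes with prescribed power residue symbols

For every `m` there is `c > 0` such that for every prime power `d` and every `Z` there is `C` with the following
property. For every large `X` there is a set `S` of at most `(log X) ^ (49 / 50)` primes, all larger than `Z`, such
that for EVERY choice of a residue `b q` prime to `q` for every prime `q` at least `X ^ (4 / 5)` integers `n`,
`X < n ≤ 4X`, satisfy: all the primes at distance at most `c log X log log X` from `n` lie in `[n, n + C]`, there are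
at least `m` of them, and every such prime `p` is `b q` times a `d`-th power modulo every prime `q ≤ (log X) / 1000`
outside `S` (and `p = b q` modulo `q` if `q ≤ Z`).

So the `m` or more consecutive primes near `n` lie in an interval of bounded length, have the same prescribed `d`-th
power residue symbols modulo almost all the primes up to `(log X) / 1000`, and the gaps before and after them are
larger than the mean gap by a factor `c log log X`.
For `d = 2` they split in the same prescribed way in all the quadratic fields of odd discriminant composed of the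
primes `q`; the compositum of these fields has degree `exp (c' log X / log log X)`.

Method: Weil's bound gives classes modulo `q` in which all members of a fixed tuple have the prescribed
symbols; the Maynard-Tao theorem with repelling weights (`TH101.RG`, `H312R2`) in an arbitrary class modulo a power
of `X` (`Pool/Agent/Q84/MB/D4-D8`, new form of the relative Bombieri-Vinogradov theorem, based on `H378R2`), together
with Selberg's upper bound for the number of the remaining integers of the window.
-/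

set_option autoImplicit false

open scoped Classical

namespace Pool.Agent.Results.MP_ff81b6_nt.GapsAroundCosetClusters

open Finset

/-- `n` is next to an isolated cluster: at least `m` primes lie in `[n, n + C]`, and every prime `p` at
distance at most `D` from `n` lies in `[n, n + C]` and satisfies `p ≡ b q z ^ d` modulo `q` for some `z`, for every
prime `q ≤ y` outside `S`, with `p ≡ b q` if `q ≤ Z`. -/
def Cluster (m C d Z : ℕ) (D y : ℝ) (S : Finset ℕ) (b : ℕ → ℕ) (n : ℕ) : Prop :=
  m ≤ ((Icc n (n + C)).filter Nat.Prime).card ∧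
    ∀ p : ℕ, p.Prime → |(p : ℝ) - n| ≤ D → n ≤ p ∧ p ≤ n + C ∧
      ∀ q : ℕ, q.Prime → (q : ℝ) ≤ y → q ∉ S →
        (q ≤ Z → p ≡ b q [MOD q]) ∧ ∃ z : ℕ, p ≡ b q * z ^ d [MOD q]

/-- **Large gaps on both sides of clusters with prescribed power residue symbols.** -/
theorem result (m : ℕ) : ∃ c : ℝ, 0 < c ∧ ∀ ℓ e : ℕ, ℓ.Prime → ∀ Z : ℕ, ∃ C : ℕ, ∃ X₀ : ℝ, ∀ X : ℝ, X₀ ≤ X →
    ∃ S : Finset ℕ, (∀ q ∈ S, q.Prime ∧ Z < q) ∧ (S.card : ℝ) ≤ (Real.log X) ^ (49 / 50 : ℝ) ∧
    ∀ b : ℕ → ℕ, (∀ q : ℕ, q.Prime → ¬ q ∣ b q) →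
      X ^ (4 / 5 : ℝ) ≤ (((Icc 1 ⌊4 * X⌋₊).filter fun n : ℕ => X < n ∧
        Cluster m C (ℓ ^ e) Z (c * (Real.log X * Real.log (Real.log X))) (Real.log X / 1000) S b n).card : ℝ) := by
  obtain ⟨c, hc, hmain⟩ := Pool.Agent.Q84.MB.clusters m
  refine ⟨c, hc, fun ℓ e hℓ Z => ?_⟩
  obtain ⟨C, hC⟩ := hmain ℓ e hℓ Z
  have ev : ∀ᶠ X : ℝ in Filter.atTop, (Z : ℝ) ≤ Real.log (Real.log X) ∧ 2 ≤ Pool.Agent.Q84.MB.vv X ∧
      1 ≤ Real.log X ∧ 1 ≤ X := by
    filter_upwards [(Real.tendsto_log_atTop.comp Real.tendsto_log_atTop).eventually_ge_atTop (Z : ℝ),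
      Pool.Agent.Q84.MB.vv_tendsto.eventually_ge_atTop 2, Real.tendsto_log_atTop.eventually_ge_atTop 1,
      Filter.eventually_ge_atTop (1 : ℝ)] with X h1 h2 h3 h4
    exact ⟨h1, h2, h3, h4⟩
  obtain ⟨X₀, hX₀⟩ := Filter.eventually_atTop.1 (hC.and ev)
  refine ⟨C, X₀, fun X hX => ?_⟩
  obtain ⟨⟨ps, S, hps, hS, hSc, hwin⟩, hZl, hv2, hL1, hX1⟩ := hX₀ X hX
  obtain ⟨S', hS'⟩ : ∃ S', S' = S ∪ ({ps} : Finset ℕ).filter Nat.Prime := ⟨_, rfl⟩
  refine ⟨S', ?_, ?_, fun b hb => ?_⟩
  · intro q hq
    rw [hS', mem_union, mem_filter, mem_singleton] at hq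
    rcases hq with h | h
    · obtain ⟨h1, h2, -⟩ := hS.1 q h
      refine ⟨h1, ?_⟩
      have h3 := Nat.le_ceil ((Real.log (Real.log X)) ^ 3)
      have h4 : ((⌈(Real.log (Real.log X)) ^ 3⌉₊ : ℕ) : ℝ) < q := by exact_mod_cast h2
      have h5 : (Z : ℝ) ≤ (Real.log (Real.log X)) ^ 3 := by
        rcases Nat.eq_zero_or_pos Z with h0 | h0
        · rw [h0]
          push_cast
          have : 0 ≤ Real.log (Real.log X) := Real.log_nonneg hL1
          positivity
        · have h6 : (1 : ℝ) ≤ Z := by exact_mod_cast h0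
          calc (Z : ℝ) ≤ Real.log (Real.log X) := hZl
            _ ≤ (Real.log (Real.log X)) ^ 3 := le_self_pow₀ (h6.trans hZl) (by norm_num)
      have h6 : (Z : ℝ) < q := by linarith
      exact_mod_cast h6
    · refine ⟨h.2, ?_⟩
      rcases hps with h1 | h1
      · exfalso
        rw [h.1, h1] at h
        exact Nat.not_prime_one h.2
      · rw [h.1]
        have := h1.2
        omega
  · have h1 : (S'.card : ℝ) ≤ S.card + 1 := by
      have h2 : S'.card ≤ S.card + (({ps} : Finset ℕ).filter Nat.Prime).card := by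
        rw [hS']
        exact card_union_le _ _
      have h3 : (({ps} : Finset ℕ).filter Nat.Prime).card ≤ 1 := by
        refine (card_filter_le _ _).trans ?_
        rw [card_singleton]
      exact_mod_cast h2.trans (Nat.add_le_add_left h3 _)
    obtain ⟨v, hv⟩ : ∃ v, v = Pool.Agent.Q84.MB.vv X := ⟨_, rfl⟩
    rw [← hv] at hv2 hSc
    have h4 : (Real.log X) ^ (49 / 50 : ℝ) = v ^ 196 := by
      have h5 : v ^ 200 = Real.log X := by
        rw [hv]
        exact Pool.Agent.Q84.MB.vv_pow (by linarith)
      rw [← h5, ← Real.rpow_natCast, ← Real.rpow_natCast, ← Real.rpow_mul (by linarith)]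
      norm_num
    rw [h4]
    have h5 : (1 : ℝ) ≤ v ^ 195 := one_le_pow₀ (by linarith)
    have h6 : v ^ 196 = v * v ^ 195 := by ring
    rw [h6]
    nlinarith
  · obtain ⟨G, hG, hGn⟩ := hwin b hb
    refine hG.trans (Nat.cast_le.2 (card_le_card ?_))
    intro n hn
    obtain ⟨h1, h2, h3, h4⟩ := hGn n hn
    rw [mem_filter, mem_Icc]
    refine ⟨⟨?_, Nat.le_floor h2⟩, h1, h3, fun p hp hpn => ?_⟩
    · have : (1 : ℝ) < n := by linarith
      exact_mod_cast this.le
    · obtain ⟨h5, h6, h7⟩ := h4 p hp hpn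
      refine ⟨h5, h6, fun q hq hqy hqS => ?_⟩
      have hqPW : q ∈ Pool.Agent.H378R2.PW X S ps := by
        rw [Pool.Agent.H378R2.mem_PW]
        rw [hS', mem_union, mem_filter, mem_singleton] at hqS
        push Not at hqS
        exact ⟨Nat.le_floor hqy, hq, hqS.1, fun h => hqS.2 h hq⟩
      obtain ⟨z, -, hz2, hz3⟩ := h7 q hqPW
      refine ⟨fun hqZ => ?_, z, hz3⟩
      rw [hz2 hqZ, one_pow, mul_one] at hz3
      exact hz3

end Pool.Agent.Results.MP_ff81b6_nt.GapsAroundCosetClusters
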