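import Pool.Agent.Q198.PP.P13

/-!
# The constant of Cramér's conjecture and random errors of size `c (log p)^2`

Replace every prime `p` by `p + ξ p`, where the errors `ξ p` are independent and take values in `0, 1, 2, …`, and
let `s_0 < s_1 < …` be the set obtained. Let `L` be the upper limit of `(s_{n+1} - s_n) / (log s_n)^2`; for the
primes themselves this is the number of the problem (`1` according to Cramér, at least `2 e^(-γ)` according to
Granville; nobody can show that it is positive). In Cramér's model of the primes such errors change nothing.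

* For all laws of the errors `L` is almost surely a constant, given by a formula.
* Errors at most `c (log p)^2` (random or not) change `L` by at most `c`.
* If the errors are at most `c' (log p)^2` and spread so that no value has a probability larger than
  `1 / (c (log p)^2)`, then almost surely `L ≥ c (1 - exp (-2 e^(-γ) / c))`; in particular `L > 0` always and
  `L > 1` if `c ≥ 5`.
* Let `Λ c` be the almost sure value of `L` for the errors uniformly distributed on the integers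
  `0, …, ⌊c (log p)^2⌋`. Then `Λ : [0, ∞) → [0, ∞]` is Lipschitz with constant `1`, its value at `0` is the
  constant `L` of the primes, `Λ c ≥ c (1 - exp (-2 e^(-γ) / c)) > 0` for `c > 0`, `Λ c > 1` for `c ≥ 5` and
  the lower limit of `Λ` at infinity is at least `2 e^(-γ) = 1.12…`.
-/

set_option autoImplicit false

namespace Pool.Agent.Results.MP_ff81b6_nt.RandomErrors

open Filter Finset MeasureTheory ProbabilityTheory
open scoped ENNReal Topology

/-- the errors `ξ p`, `p = 0, 1, 2, …`, are independent random variables with values in `0, 1, 2, …` -/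
structure Errors {Ω : Type} [MeasurableSpace Ω] (μ : Measure Ω) (ξ : ℕ → Ω → ℕ) : Prop where
  meas : ∀ p, Measurable (ξ p)
  indep : iIndepFun ξ μ

/-- `ξ p` is uniformly distributed on `{0, 1, …, H p}` -/
def Uniform {Ω : Type} [MeasurableSpace Ω] (μ : Measure Ω) (H : ℕ → ℕ) (ξ : ℕ → Ω → ℕ) : Prop :=
  ∀ p k, k ≤ H p → μ {ω | ξ p ω = k} = ENNReal.ofReal (1 / ((H p : ℝ) + 1))

/-- the primes with the errors `x p` -/
def moved (x : ℕ → ℕ) : Set ℕ := {m | ∃ p, p.Prime ∧ p + x p = m}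

/-- `limsup (s_{n+1} - s_n) / (log s_n)^2` for a set `S` of natural numbers with the elements
`s_0 < s_1 < …` (all the sets below are infinite) -/
noncomputable def L (S : Set ℕ) : ℝ≥0∞ :=
  limsup (fun n : ℕ => ENNReal.ofReal
    (((Nat.nth (· ∈ S) (n + 1) : ℝ) - Nat.nth (· ∈ S) n) / (Real.log (Nat.nth (· ∈ S) n)) ^ 2)) atTop

/-- the probability that `(n, n + t]` contains none of the `p + ξ p`, `p` prime: the product over the primes
`p ≤ n + t` of the probabilities that `p + ξ p` is not in `(n, n + t]` -/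
noncomputable def void {Ω : Type} [MeasurableSpace Ω] (μ : Measure Ω) (ξ : ℕ → Ω → ℕ) (n t : ℕ) : ℝ :=
  ∏ p ∈ (range (n + t + 1)).filter Nat.Prime, μ.real {ω | ¬ (n < p + ξ p ω ∧ p + ξ p ω ≤ n + t)}

/-- the infimum of the `C > 0` such that the sum over `n` of the probability that `(n, n + C (log n)^2]`
contains none of the `p + ξ p`, divided by `(log n)^2`, is finite -/
noncomputable def Lam {Ω : Type} [MeasurableSpace Ω] (μ : Measure Ω) (ξ : ℕ → Ω → ℕ) : ℝ≥0∞ :=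
  sInf {x | ∃ C : ℝ, 0 < C ∧ x = ENNReal.ofReal C ∧
    Summable fun n : ℕ => void μ ξ n ⌊C * (Real.log n) ^ 2⌋₊ / (Real.log n) ^ 2}

theorem result :
    -- (1) the almost sure value
    (∀ (Ω : Type) [MeasurableSpace Ω] (μ : Measure Ω) (ξ : ℕ → Ω → ℕ), Errors μ ξ →
      ∀ᵐ ω ∂μ, L (moved fun p => ξ p ω) = Lam μ ξ) ∧
    -- (2) errors at most `c log ^ 2`
    (∀ (x : ℕ → ℕ) (c : ℝ), 0 ≤ c → (∀ᶠ p : ℕ in atTop, (x p : ℝ) ≤ c * (Real.log p) ^ 2) →
      L (moved x) ≤ L {p | p.Prime} + ENNReal.ofReal c ∧ L {p | p.Prime} ≤ L (moved x) + ENNReal.ofReal c) ∧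
    -- (3) errors spread over intervals of length of order `log ^ 2`
    (∀ (Ω : Type) [MeasurableSpace Ω] (μ : Measure Ω) (ξ : ℕ → Ω → ℕ) (H : ℕ → ℕ) (c c' : ℝ), Errors μ ξ →
      0 < c → 0 < c' → (∀ p, ∀ᵐ ω ∂μ, ξ p ω ≤ H p) →
      (∀ᶠ p : ℕ in atTop, (H p : ℝ) ≤ c' * (Real.log p) ^ 2) →
      (∀ᶠ p : ℕ in atTop, ∀ k, μ.real {ω | ξ p ω = k} ≤ 1 / (c * (Real.log p) ^ 2)) →
      (∀ᵐ ω ∂μ, ENNReal.ofReal (c * (1 - Real.exp (-(2 * Real.exp (-Real.eulerMascheroniConstant) / c)))) ≤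
        L (moved fun p => ξ p ω)) ∧
      (5 ≤ c → ∀ᵐ ω ∂μ, 1 < L (moved fun p => ξ p ω))) ∧
    -- (4) uniform errors of size `c log ^ 2`
    (∃ Λ : ℝ → ℝ≥0∞,
      (∀ c : ℝ, 0 ≤ c → ∀ (Ω : Type) [MeasurableSpace Ω] (μ : Measure Ω) (ξ : ℕ → Ω → ℕ), Errors μ ξ →
        Uniform μ (fun p => ⌊c * (Real.log p) ^ 2⌋₊) ξ → ∀ᵐ ω ∂μ, L (moved fun p => ξ p ω) = Λ c) ∧
      Λ 0 = L {p | p.Prime} ∧
      (∀ c c' : ℝ, 0 ≤ c → c ≤ c' →
        Λ c' ≤ Λ c + ENNReal.ofReal (c' - c) ∧ Λ c ≤ Λ c' + ENNReal.ofReal (c' - c)) ∧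
      (∀ c : ℝ, 0 < c →
        ENNReal.ofReal (c * (1 - Real.exp (-(2 * Real.exp (-Real.eulerMascheroniConstant) / c)))) ≤ Λ c) ∧
      (∀ c : ℝ, 5 ≤ c → 1 < Λ c) ∧
      (∀ ε : ℝ, 0 < ε → ∃ c₀ : ℝ, ∀ c : ℝ, c₀ ≤ c →
        ENNReal.ofReal (2 * Real.exp (-Real.eulerMascheroniConstant) - ε) ≤ Λ c)) ∧
    -- (5) the uniform errors exist
    (∀ H : ℕ → ℕ, ∃ μ : Measure (ℕ → ℕ), Errors μ (fun p ω => ω p) ∧ Uniform μ H (fun p ω => ω p)) := by
  have hlog : ∀ n : ℕ, Q110.RS.lpw 2 n = Real.log n ^ 2 := Q198.PP.lpw_two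
  have hL : ∀ S : Set ℕ, L S = Q110.RS.gapLim (Q110.RS.lpw 2) S := by
    intro S
    unfold L Q110.RS.gapLim
    congr 1
    funext n
    rw [hlog]
  have hvoid : ∀ {Ω : Type} [MeasurableSpace Ω] {μ : Measure Ω} {ξ : ℕ → Ω → ℕ}, Errors μ ξ → ∀ n t : ℕ,
      void μ ξ n t = Q198.PP.vd Q198.PP.PR id (Q198.PP.lw μ ξ) (Ioc n (n + t)) := by
    intro Ω _ μ ξ h n t
    classical
    have hP : IsProbabilityMeasure μ := h.indep.isProbabilityMeasure
    rw [Q198.PP.vd_eq (Q198.PP.lw_low μ ξ) (B := n + t) (by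
      apply Finset.sup_le
      intro m hm
      exact (mem_Ioc.1 hm).2)]
    unfold void
    have hE := Q198.PP.lw_err h.meas h.indep
    apply Finset.prod_congr
    · ext p
      simp only [mem_filter]
      exact Iff.rfl
    · intro p _
      have h1 := hE.hit_compl (Ioc n (n + t)) p
      have h2 := hE.hit_le (Ioc n (n + t)) p
      have h3 : {ω | ¬ (n < p + ξ p ω ∧ p + ξ p ω ≤ n + t)} = {ω | p + ξ p ω ∉ Ioc n (n + t)} := by
        ext ω
        simp only [Set.mem_ofPred_eq, mem_Ioc]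
      rw [h3, measureReal_def, h1, ENNReal.toReal_ofReal (by linarith)]
  have hLam : ∀ {Ω : Type} [MeasurableSpace Ω] {μ : Measure Ω} {ξ : ℕ → Ω → ℕ}, Errors μ ξ →
      Lam μ ξ = Q198.PP.LamV (Q110.RS.lpw 2) (Q198.PP.vd Q198.PP.PR id (Q198.PP.lw μ ξ)) := by
    intro Ω _ μ ξ h
    unfold Lam Q198.PP.LamV
    congr 1
    ext x
    constructor
    · rintro ⟨C, hC, hx, hs⟩
      refine ⟨C, hC, hx, hs.congr fun n => ?_⟩
      unfold Q198.PP.Q
      rw [hlog, hvoid h]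
    · rintro ⟨C, hC, hx, hs⟩
      refine ⟨C, hC, hx, hs.congr fun n => ?_⟩
      unfold Q198.PP.Q
      rw [hlog, hvoid h]
  have hPR : ({p | p.Prime} : Set ℕ) = Q198.PP.PR := rfl
  have hone : ∀ {Ω : Type} [MeasurableSpace Ω] {μ : Measure Ω} {ξ : ℕ → Ω → ℕ}, Errors μ ξ →
      ∀ᵐ ω ∂μ, L (moved fun p => ξ p ω) = Lam μ ξ := by
    intro Ω _ μ ξ h
    filter_upwards [Q198.PP.lw_formula h.meas h.indep] with ω hω
    rw [hL, hLam h, ← hω]
    rfl
  have hlow : ∀ {Ω : Type} [MeasurableSpace Ω] {μ : Measure Ω} {ξ : ℕ → Ω → ℕ} {H : ℕ → ℕ} {c c' : ℝ},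
      Errors μ ξ → 0 < c → 0 < c' → (∀ p, ∀ᵐ ω ∂μ, ξ p ω ≤ H p) →
      (∀ᶠ p : ℕ in atTop, (H p : ℝ) ≤ c' * (Real.log p) ^ 2) →
      (∀ᶠ p : ℕ in atTop, ∀ k, μ.real {ω | ξ p ω = k} ≤ 1 / (c * (Real.log p) ^ 2)) →
      ∀ᵐ ω ∂μ, ENNReal.ofReal (c * (1 - Real.exp (-(2 * Real.exp (-Real.eulerMascheroniConstant) / c)))) ≤
        L (moved fun p => ξ p ω) := by
    intro Ω _ μ ξ H c c' h hc hc' h1 h2 h3
    filter_upwards [hone h] with ω hω
    rw [hω, hLam h, ← Q198.PP.om_two c hc]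
    exact Q198.PP.lw_lower h.meas h.indep h1 hc hc' h2 h3
  refine ⟨fun Ω _ μ ξ h => hone h, ?_, ?_, ⟨Q198.PP.crit, ?_, ?_, ?_, ?_, ?_, ?_⟩, ?_⟩
  · intro x c hc hx
    rw [hL, hL, hPR]
    exact Q198.PP.det_close hc hx
  · intro Ω _ μ ξ H c c' h hc hc' h1 h2 h3
    refine ⟨hlow h hc hc' h1 h2 h3, fun h5 => ?_⟩
    have h6 : ∀ᶠ p : ℕ in atTop, ∀ k, μ.real {ω | ξ p ω = k} ≤ 1 / (5 * (Real.log p) ^ 2) := by
      filter_upwards [h3, Q110.RS.tlog.eventually_ge_atTop 1] with p h7 h8 k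
      refine (h7 k).trans (one_div_le_one_div_of_le (by positivity) ?_)
      exact mul_le_mul_of_nonneg_right h5 (sq_nonneg _)
    filter_upwards [hlow h (show (0 : ℝ) < 5 by norm_num) hc' h1 h2 h6] with ω hω
    refine lt_of_lt_of_le ?_ hω
    rw [← ENNReal.ofReal_one]
    exact (ENNReal.ofReal_lt_ofReal_iff_of_nonneg zero_le_one).2 Q198.PP.five_gt
  · intro c hc Ω _ μ ξ h hU
    have h1 : Q198.PP.IsU μ (fun p => ⌊c * (Real.log p) ^ 2⌋₊) ξ := ⟨h.meas, h.indep, hU⟩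
    filter_upwards [h1.formula] with ω hω
    rw [hL]
    exact hω
  · rw [hL, hPR]
    exact Q198.PP.crit_zero
  · intro c c' hc hcc
    exact Q198.PP.crit_lip hc hcc
  · intro c hc
    exact Q198.PP.crit_lower hc le_rfl
  · intro c hc
    exact Q198.PP.crit_five hc
  · intro ε hε
    set g := 2 * Real.exp (-Real.eulerMascheroniConstant) with hg
    have hg0 : 0 < g := by positivity
    refine ⟨g ^ 2 / ε, fun c hc => ?_⟩
    have hc0 : 0 < g ^ 2 / ε := by positivity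
    refine le_trans (ENNReal.ofReal_le_ofReal ?_) (Q198.PP.crit_lower hc0 hc)
    have h1 := Q198.PP.exp_neg_le (x := g / (g ^ 2 / ε)) (by positivity)
    have h2 := mul_le_mul_of_nonneg_left h1 hc0.le
    refine le_trans ?_ h2
    have h3 : g ^ 2 / ε * (g / (g ^ 2 / ε) - (g / (g ^ 2 / ε)) ^ 2 / 2) = g - ε / 2 := by
      field_simp
    rw [h3]
    linarith
  · intro H
    obtain ⟨μ, h⟩ := Q198.PP.exists_IsU H
    exact ⟨μ, ⟨h.meas, h.indep⟩, h.law⟩

end Pool.Agent.Results.MP_ff81b6_nt.RandomErrors
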