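import Pool.Agent.Q145.RA.Shifts

set_option autoImplicit false
set_option maxHeartbeats 4000000

/-!
# Cramér's law for random patterns of shifts

Cramér's conjecture says that for the pattern `1, 2, 3, ...` the least `k` such that each
`n ≤ X` has a prime among `n + 1, ..., n + k` is asymptotic to `log² X`; its strong form says
that for `k = κ log² X`, `κ < 1`, the number of the `n ≤ X` without such a prime is
`X^(1 - κ + o(1))`.  We prove both statements for almost all patterns `s_1, s_2, ...` of shifts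
from `[1, Y]`, and for every set `V` of `X` points of `[1, Y]` in place of `{1, ..., X}`, with
`log X log Y` in place of `log² X`.
-/

namespace Pool.Agent.Results.MP_ff81b6_nt.RandomPatterns

open Finset

open scoped Classical

/-- The `n ∈ V` such that none of `n + s_1, ..., n + s_k` is a prime (`s` is a sequence of
length `K`, the terms are `s_{i+1} = s i`, `i : Fin K`). -/
noncomputable def Missed (V : Finset ℕ) (k : ℕ) {K : ℕ} (s : Fin K → ℕ) : Finset ℕ :=
  V.filter (fun n => ∀ i : Fin K, (i : ℕ) < k → ¬ (n + s i).Prime)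

/-- `κ = k / (log X log Y)` -/
noncomputable def kappa (X Y k : ℕ) : ℝ := (k : ℝ) / (Real.log X * Real.log Y)

/-- With `X = #V`, for all `k ≤ K`: `X^(1 - κ - ε) ≤ #Missed ≤ X^(1 - κ + ε)` if `κ ≤ 1 - ε`, and
`Missed` is empty if `κ ≥ 1 + ε`. -/
def Law (ε : ℝ) (V : Finset ℕ) (Y K : ℕ) (s : Fin K → ℕ) : Prop := ∀ k ≤ K,
  (kappa V.card Y k ≤ 1 - ε → (V.card : ℝ) ^ (1 - kappa V.card Y k - ε) ≤ (Missed V k s).card ∧
    ((Missed V k s).card : ℝ) ≤ (V.card : ℝ) ^ (1 - kappa V.card Y k + ε)) ∧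
  (1 + ε ≤ kappa V.card Y k → Missed V k s = ∅)

/-- The least `t` such that `n + s_t` is a prime (`K + 1` if there is none). -/
noncomputable def wait {K : ℕ} (s : Fin K → ℕ) (n : ℕ) : ℕ :=
  sInf {t : ℕ | K < t ∨ ∃ i : Fin K, (i : ℕ) + 1 = t ∧ (n + s i).Prime}

/-- The largest waiting time over `n ∈ V` (for `V = {1, ..., X}` and `s_i = i` it is the longest
distance of an `n ≤ X` to the next prime). -/
noncomputable def maxWait (V : Finset ℕ) {K : ℕ} (s : Fin K → ℕ) : ℕ := V.sup (wait s)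

/-- All sequences of length `K` of integers from `[1, Y]`. -/
def Seqs (Y K : ℕ) : Finset (Fin K → ℕ) := Fintype.piFinset (fun _ : Fin K => Icc 1 Y)

theorem card_le (V : Finset ℕ) (Y : ℕ) (hV : V ⊆ Icc 1 Y) : V.card ≤ Y := by
  have := card_le_card hV
  rwa [Nat.card_Icc, Nat.add_sub_cancel] at this

theorem law_mono (ε' ε : ℝ) (h : ε' ≤ ε) (V : Finset ℕ) (Y K : ℕ) (hX : 1 ≤ V.card) (s : Fin K → ℕ)
    (hs : Law ε' V Y K s) : Law ε V Y K s := by
  intro k hk
  have hX1 : (1 : ℝ) ≤ V.card := by exact_mod_cast hX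
  obtain ⟨h1, h2⟩ := hs k hk
  refine ⟨fun h3 => ?_, fun h3 => h2 (by linarith)⟩
  obtain ⟨h4, h5⟩ := h1 (by linarith)
  exact ⟨le_trans (Real.rpow_le_rpow_of_exponent_le hX1 (by linarith)) h4,
    h5.trans (Real.rpow_le_rpow_of_exponent_le hX1 (by linarith))⟩

theorem filter_inst {γ : Type} (s : Finset γ) (p : γ → Prop) (i j : DecidablePred p) :
    @Finset.filter _ p i s = @Finset.filter _ p j s := by
  have h : i = j := Subsingleton.elim _ _
  subst h
  rfl

theorem kappa_eq (X Y k : ℕ) : Pool.Agent.Q145.RA.kap (1 / Real.log Y) X k = kappa X Y k := by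
  unfold Pool.Agent.Q145.RA.kap kappa
  rw [mul_one_div, div_div, mul_comm (Real.log Y)]

theorem law_all (ε : ℝ) (hε : 0 < ε) : ∃ X₀ : ℕ, ∀ (V : Finset ℕ) (Y : ℕ), X₀ ≤ V.card → V ⊆ Icc 1 Y → ∀ K : ℕ,
    (((Seqs Y K).filter (fun s => ¬ Law ε V Y K s)).card : ℝ) ≤ ε * (Y : ℝ) ^ K := by
  obtain ⟨X₀, h⟩ := Pool.Agent.Q145.RA.shifts_law (min ε 1) (lt_min hε one_pos) (min_le_right _ _)
  refine ⟨max X₀ 1, fun V Y hX hVY K => ?_⟩
  have h1 := h V Y ((le_max_left _ _).trans hX) hVY K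
  have h2 : ((Seqs Y K).filter (fun s => ¬ Law ε V Y K s)) ⊆
      ((Pool.Agent.Q145.RA.seqs (Icc 1 Y) K).filter
        (fun s => ¬ Pool.Agent.Q145.RA.All (min ε 1) (1 / Real.log Y) (fun n a => (n + a).Prime) V K s)) := by
    intro s hs
    obtain ⟨h3, h4⟩ := mem_filter.1 hs
    refine mem_filter.2 ⟨h3, fun h5 => h4 (law_mono (min ε 1) ε (min_le_left _ _) V Y K ((le_max_right _ _).trans hX) s ?_)⟩
    intro k hk
    obtain ⟨h6, h7⟩ := h5 k hk
    rw [kappa_eq] at h6 h7
    have h8 : Pool.Agent.Q145.RA.missed (fun n a => (n + a).Prime) V k s = Missed V k s := by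
      unfold Pool.Agent.Q145.RA.missed Missed
      exact filter_inst _ _ _ _
    rw [h8] at h6 h7
    exact ⟨h6, h7⟩
  have h3 : (((Seqs Y K).filter (fun s => ¬ Law ε V Y K s)).card : ℝ) ≤
      (((Pool.Agent.Q145.RA.seqs (Icc 1 Y) K).filter
        (fun s => ¬ Pool.Agent.Q145.RA.All (min ε 1) (1 / Real.log Y) (fun n a => (n + a).Prime) V K s)).card : ℝ) := by
    exact_mod_cast card_le_card h2
  refine (h3.trans h1).trans (mul_le_mul_of_nonneg_right (min_le_left _ _) (by positivity))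

theorem wait_of_law (ε : ℝ) (hε : 0 < ε) (hε1 : ε ≤ 1) (V : Finset ℕ) (Y K : ℕ) (hX : 3 ≤ V.card)
    (hP : 2 ≤ ε * (Real.log V.card * Real.log Y)) (hK : (1 + ε) * (Real.log V.card * Real.log Y) ≤ K)
    (s : Fin K → ℕ) (hs : Law (ε / 2) V Y K s) :
    (1 - ε) * (Real.log V.card * Real.log Y) ≤ maxWait V s ∧
    (maxWait V s : ℝ) ≤ (1 + ε) * (Real.log V.card * Real.log Y) := by
  set P : ℝ := Real.log V.card * Real.log Y with hPd
  have hP0 : 0 < P := by
    by_contra h
    push Not at h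
    nlinarith
  have hX1 : (1 : ℝ) ≤ V.card := by
    have : 1 ≤ V.card := by omega
    exact_mod_cast this
  constructor
  · set k : ℕ := ⌊(1 - ε / 2) * P⌋₊ with hk
    have h0 : 0 ≤ (1 - ε / 2) * P := mul_nonneg (by linarith) hP0.le
    have h1 : (k : ℝ) ≤ (1 - ε / 2) * P := Nat.floor_le h0
    have h2 : (1 - ε / 2) * P < k + 1 := Nat.lt_floor_add_one _
    have hkK : k ≤ K := by
      have : (k : ℝ) ≤ K := by nlinarith
      exact_mod_cast this
    have h3 : kappa V.card Y k ≤ 1 - ε / 2 := by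
      unfold kappa
      rw [← hPd, div_le_iff₀ hP0]
      exact h1
    have h4 := ((hs k hkK).1 h3).1
    have h5 : (1 : ℝ) ≤ (V.card : ℝ) ^ (1 - kappa V.card Y k - ε / 2) := Real.one_le_rpow hX1 (by linarith)
    have h6 : 0 < (Missed V k s).card := by
      have : (1 : ℝ) ≤ (Missed V k s).card := h5.trans h4
      have h7 : 1 ≤ (Missed V k s).card := by exact_mod_cast this
      omega
    obtain ⟨n, hn⟩ := card_pos.1 h6
    obtain ⟨hn1, hn2⟩ := mem_filter.1 hn
    have h7 : k + 1 ≤ wait s n := by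
      apply le_csInf ⟨K + 1, Or.inl (by omega)⟩
      rintro t (ht | ⟨i, hi, hp⟩)
      · omega
      · by_contra h
        exact hn2 i (by omega) hp
    have h8 : wait s n ≤ maxWait V s := le_sup hn1
    have h9 : ((k + 1 : ℕ) : ℝ) ≤ maxWait V s := by exact_mod_cast h7.trans h8
    push_cast at h9
    nlinarith
  · set k : ℕ := ⌈(1 + ε / 2) * P⌉₊ with hk
    have h1 : (1 + ε / 2) * P ≤ k := Nat.le_ceil _
    have h2 : (k : ℝ) < (1 + ε / 2) * P + 1 := Nat.ceil_lt_add_one (by positivity)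
    have h2' : (k : ℝ) ≤ (1 + ε) * P := by nlinarith
    have hkK : k ≤ K := by exact_mod_cast h2'.trans hK
    have h3 : 1 + ε / 2 ≤ kappa V.card Y k := by
      unfold kappa
      rw [← hPd, le_div_iff₀ hP0]
      exact h1
    have h4 := (hs k hkK).2 h3
    have h5 : maxWait V s ≤ k := by
      apply Finset.sup_le
      intro n hn
      have h6 : n ∉ Missed V k s := by
        rw [h4]
        exact notMem_empty n
      unfold Missed at h6
      rw [mem_filter, not_and] at h6
      have h7 := h6 hn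
      push Not at h7
      obtain ⟨i, hi, hp⟩ := h7
      refine (Nat.sInf_le (Or.inr ⟨i, rfl, hp⟩)).trans ?_
      omega
    have h6 : (maxWait V s : ℝ) ≤ k := by exact_mod_cast h5
    linarith

/-- **Cramér's law for random patterns.**  Let `ε > 0`, let `V ⊆ {1, ..., Y}` be any set of
`X = #V` points, `X` large in terms of `ε` only.

(i) For every `K`, all but at most `ε Y^K` of the sequences `s ∈ {1, ..., Y}^K` have the following
property: for every `k ≤ K`, with `κ = k / (log X log Y)`: if `κ ≤ 1 - ε` then the number of the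
`n ∈ V` such that none of `n + s_1, ..., n + s_k` is a prime lies between `X^(1 - κ - ε)` and
`X^(1 - κ + ε)`; if `κ ≥ 1 + ε` there is no such `n`.

(ii) For every `K ≥ (1 + ε) log X log Y`, all but at most `ε Y^K` of the sequences
`s ∈ {1, ..., Y}^K` have the following property: the largest waiting time (the least `t` such that
each `n ∈ V` has a prime among `n + s_1, ..., n + s_t`) lies between `(1 - ε) log X log Y` and
`(1 + ε) log X log Y`. -/
theorem result : ∀ ε : ℝ, 0 < ε → ∃ X₀ : ℕ, ∀ (V : Finset ℕ) (Y : ℕ), X₀ ≤ V.card → V ⊆ Icc 1 Y →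
    (∀ K : ℕ, (((Seqs Y K).filter (fun s => ¬ Law ε V Y K s)).card : ℝ) ≤ ε * (Y : ℝ) ^ K) ∧
    (∀ K : ℕ, (1 + ε) * (Real.log V.card * Real.log Y) ≤ K →
      (((Seqs Y K).filter (fun s => ¬ ((1 - ε) * (Real.log V.card * Real.log Y) ≤ maxWait V s ∧
        (maxWait V s : ℝ) ≤ (1 + ε) * (Real.log V.card * Real.log Y)))).card : ℝ) ≤ ε * (Y : ℝ) ^ K) := by
  intro ε hε
  obtain ⟨X₁, h1⟩ := law_all ε hε
  set ε₁ : ℝ := min ε 1 with hε₁
  have hε₁0 : 0 < ε₁ := lt_min hε one_pos
  have hε₁1 : ε₁ ≤ 1 := min_le_right _ _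
  have hε₁ε : ε₁ ≤ ε := min_le_left _ _
  obtain ⟨X₂, h2⟩ := law_all (ε₁ / 2) (by positivity)
  have hl : Filter.Tendsto (fun Y : ℕ => Real.log Y) Filter.atTop Filter.atTop :=
    Real.tendsto_log_atTop.comp tendsto_natCast_atTop_atTop
  obtain ⟨X₃, h3⟩ := Filter.eventually_atTop.1 (hl.eventually_ge_atTop (2 / ε₁))
  refine ⟨max (max X₁ X₂) (max X₃ 3), fun V Y hX hVY =>
    ⟨fun K => h1 V Y (((le_max_left _ _).trans (le_max_left _ _)).trans hX) hVY K, fun K hK => ?_⟩⟩
  have hX₂ : X₂ ≤ V.card := ((le_max_right _ _).trans (le_max_left _ _)).trans hX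
  have hX₃ : X₃ ≤ V.card := ((le_max_left _ _).trans (le_max_right _ _)).trans hX
  have hX3 : 3 ≤ V.card := ((le_max_right _ _).trans (le_max_right _ _)).trans hX
  have h4 := h2 V Y hX₂ hVY K
  have h5 := h3 V.card hX₃
  have hXr : (3 : ℝ) ≤ V.card := by exact_mod_cast hX3
  have hXYr : (V.card : ℝ) ≤ Y := by exact_mod_cast card_le V Y hVY
  have hAL : Real.log V.card ≤ Real.log Y := Real.log_le_log (by linarith) hXYr
  have h6 : 2 ≤ 2 / ε₁ := by
    rw [le_div_iff₀ hε₁0]
    linarith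
  have hP : 2 ≤ ε₁ * (Real.log V.card * Real.log Y) := by
    have h7 : 2 / ε₁ * 1 ≤ Real.log V.card * Real.log Y := mul_le_mul h5 (by linarith) zero_le_one (by linarith)
    rw [mul_one, div_le_iff₀ hε₁0] at h7
    linarith
  have hP0 : 0 ≤ Real.log V.card * Real.log Y := mul_nonneg (by linarith) (by linarith)
  have h7 : (Seqs Y K).filter (fun s => ¬ ((1 - ε) * (Real.log V.card * Real.log Y) ≤ maxWait V s ∧
        (maxWait V s : ℝ) ≤ (1 + ε) * (Real.log V.card * Real.log Y))) ⊆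
      (Seqs Y K).filter (fun s => ¬ Law (ε₁ / 2) V Y K s) := by
    intro s hs
    obtain ⟨h8, h9⟩ := mem_filter.1 hs
    refine mem_filter.2 ⟨h8, fun h10 => h9 ?_⟩
    have hK' : (1 + ε₁) * (Real.log V.card * Real.log Y) ≤ K := by nlinarith
    obtain ⟨h11, h12⟩ := wait_of_law ε₁ hε₁0 hε₁1 V Y K hX3 hP hK' s h10
    constructor
    · nlinarith
    · nlinarith
  have h8 : (((Seqs Y K).filter (fun s => ¬ ((1 - ε) * (Real.log V.card * Real.log Y) ≤ maxWait V s ∧
        (maxWait V s : ℝ) ≤ (1 + ε) * (Real.log V.card * Real.log Y)))).card : ℝ) ≤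
      (((Seqs Y K).filter (fun s => ¬ Law (ε₁ / 2) V Y K s)).card : ℝ) := by exact_mod_cast card_le_card h7
  refine (h8.trans h4).trans (mul_le_mul_of_nonneg_right (by linarith) (by positivity))

end Pool.Agent.Results.MP_ff81b6_nt.RandomPatterns
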