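import Pool.Agent.Q110.RS.Fin
import Pool.Agent.Q120.RSX.A

/-!
# Cramér's conjecture for random subsets of the primes, all exponents

Keep every prime `q` independently with probability `min (1, p (log q)^(-lam))`, where `0 < p ≤ 1` and
`lam ≥ 0`, and let `s_1 < s_2 < ...` be the primes that are kept. The analogue of Cramér's constant is
`limsup (s_{n+1} - s_n) / (log s_n)^(2 + lam)`. In Cramér's model of the primes its value is `1 / p`.

We show, unconditionally:

* the constant of the random subset of the primes is almost surely a number `Lam p lam` given by a formula;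
  `Lam 1 0` is Cramér's constant `L` of the primes, and `Lam p lam` decreases with `p`;
* `Lam p 0 ≥ 2 e^(-γ) / log (1 / (1 - p))`, for instance `limsup (s_{n+1} - s_n) / (log s_n)^2 > 1.6` for
  almost every subset of the primes (`p = 1/2`), and, for `0 < lam < 1`,
  `Lam p lam ≥ e^(-γ) / (p ω(2 + lam))` with Buchstab's function `ω(u) = (1 + log (u - 1)) / u`, `2 ≤ u ≤ 3`;
* for EVERY `lam > 0` there is `κ < 1` with `Lam p lam ≥ 1 / (κ p)` for all `p`;
* so the value `1 / p` predicted by Cramér's model is wrong for ALL `lam > 0` and for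
  `lam = 0`, `p ≤ 1/5`;
* `Lam p' 0 ≤ k Lam p 0` if `(1 - p')^k ≤ 1 - p`; so if `Lam p 0` is finite for one `p < 1` then it is
  finite for all `p`.

The theorem for `lam ≤ 2/5` is by helper110 (`Pool/Agent/Q110/RS`). For all `lam` it needs windows of length
`c (log n)^u` with at most `κ c (log n)^(u - 1)` primes, `κ < 1`, for `x^(1 - o(1))` of the `n ≤ x` and every `u ≥ 2`
(`Pool/Agent/Q225/MG`, helper225), which follows from the irregularity of the numbers without small prime factors at every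
exponent (`Pool/Agent/Q120/MG`).
-/

set_option autoImplicit false

namespace Pool.Agent.Results.MP_ff81b6_nt.ThinnedPrimes

open Filter Finset MeasureTheory ProbabilityTheory
open scoped ENNReal

/-- `S ω` is a random set of natural numbers: the events `m ∈ S ω`, `m = 0, 1, 2, …`, are independent,
and `m ∈ S ω` has the probability `φ m`. -/
structure IsRandom {Ω : Type} [MeasurableSpace Ω] (μ : Measure Ω) (S : Ω → Set ℕ) (φ : ℕ → ℝ) : Prop where
  meas : ∀ m, MeasurableSet {ω | m ∈ S ω}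
  indep : iIndepSet (fun m => {ω | m ∈ S ω}) μ
  prob : ∀ m, μ {ω | m ∈ S ω} = ENNReal.ofReal (φ m)

open Classical in
/-- the random subsets of the primes: the prime `q` is kept with probability `min (1, p / (log q)^lam)` -/
noncomputable def thin (p lam : ℝ) (m : ℕ) : ℝ :=
  if m.Prime then min 1 (p / (Real.log m) ^ lam) else 0

/-- the same in Cramér's model: `m` is chosen with probability `min (1, p / (log m)^(1 + lam))` -/
noncomputable def model (p lam : ℝ) (m : ℕ) : ℝ := min 1 (p / (Real.log m) ^ (1 + lam))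

/-- `limsup (s_{n+1} - s_n) / (log s_n)^u` for a set `S` of natural numbers with the elements
`s_0 < s_1 < …` (all the sets below are infinite) -/
noncomputable def L (u : ℝ) (S : Set ℕ) : ℝ≥0∞ :=
  limsup (fun n : ℕ => ENNReal.ofReal
    (((Nat.nth (· ∈ S) (n + 1) : ℝ) - Nat.nth (· ∈ S) n) / (Real.log (Nat.nth (· ∈ S) n)) ^ u)) atTop

/-- the infimum of the `C > 0` such that the sum over `n` of the probabilities that the interval
`(n, n + C (log n)^(2 + lam)]` contains no element of the random subset of the primes, divided by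
`(log n)^(2 + lam)`, is finite -/
noncomputable def Lam (p lam : ℝ) : ℝ≥0∞ :=
  sInf {x | ∃ C : ℝ, 0 < C ∧ x = ENNReal.ofReal C ∧ Summable fun n : ℕ =>
    (∏ m ∈ Ioc n (n + ⌊C * (Real.log n) ^ (2 + lam)⌋₊), (1 - thin p lam m)) / (Real.log n) ^ (2 + lam)}

theorem result :
    -- (1) the almost sure value, for the random subsets of the primes and in Cramér's model
    (∀ p lam : ℝ, 0 < p → p ≤ 1 → 0 ≤ lam →
      (∀ (Ω : Type) [MeasurableSpace Ω] (μ : Measure Ω) (S : Ω → Set ℕ), IsRandom μ S (thin p lam) →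
        ∀ᵐ ω ∂μ, L (2 + lam) (S ω) = Lam p lam) ∧
      (∀ (Ω : Type) [MeasurableSpace Ω] (μ : Measure Ω) (S : Ω → Set ℕ), IsRandom μ S (model p lam) →
        ∀ᵐ ω ∂μ, L (2 + lam) (S ω) = ENNReal.ofReal (1 / p))) ∧
    -- (2) the lower bounds
    (∀ p : ℝ, 0 < p → p < 1 →
      ENNReal.ofReal (2 * Real.exp (-Real.eulerMascheroniConstant) / Real.log (1 / (1 - p))) ≤ Lam p 0) ∧
    (∀ p lam : ℝ, 0 < p → p ≤ 1 → 0 < lam → lam < 1 →
      ENNReal.ofReal (Real.exp (-Real.eulerMascheroniConstant) * (2 + lam) / (p * (1 + Real.log (1 + lam)))) ≤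
        Lam p lam) ∧
    (∀ lam : ℝ, 0 < lam → ∃ κ : ℝ, 0 < κ ∧ κ < 1 ∧ ∀ p : ℝ, 0 < p → ENNReal.ofReal (1 / (κ * p)) ≤ Lam p lam) ∧
    -- (3) Cramér's model does not give the right value
    (∀ p lam : ℝ, 0 < p → (lam = 0 ∧ p ≤ 1 / 5) ∨ 0 < lam → ENNReal.ofReal (1 / p) < Lam p lam) ∧
    -- (4) `Lam 1 0` is the constant of the primes; monotonicity and comparison
    Lam 1 0 = limsup (fun n : ℕ => ENNReal.ofReal (((Nat.nth Nat.Prime (n + 1) : ℝ) - Nat.nth Nat.Prime n) /
      (Real.log (Nat.nth Nat.Prime n)) ^ 2)) atTop ∧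
    (∀ p p' lam : ℝ, p' ≤ p → Lam p lam ≤ Lam p' lam) ∧
    (∀ (p p' : ℝ) (k : ℕ), 0 < p → p ≤ 1 → 0 < p' → p' ≤ 1 → (1 - p') ^ k ≤ 1 - p →
      Lam p' 0 ≤ k * Lam p 0) ∧
    (∀ (p p' lam : ℝ) (k : ℕ), 0 < p → p ≤ 1 → 0 < p' → p' ≤ 1 → 0 < lam → p < k * p' →
      Lam p' lam ≤ k * Lam p lam) ∧
    -- (5) the formula for `lam = 0`, and existence of the random sets
    (∀ p : ℝ, p ≤ 1 → Lam p 0 = sInf {x | ∃ C : ℝ, 0 < C ∧ x = ENNReal.ofReal C ∧ Summable fun n : ℕ =>
      (1 - p) ^ (Nat.primeCounting (n + ⌊C * (Real.log n) ^ 2⌋₊) - Nat.primeCounting n) /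
        (Real.log n) ^ 2}) ∧
    (∀ φ : ℕ → ℝ, (∀ m, 0 ≤ φ m) → (∀ m, φ m ≤ 1) →
      ∃ μ : Measure (ℕ → Bool), IsRandom μ (fun ω => {m | ω m = true}) φ) := by
  have hthin : ∀ p lam, thin p lam = Q110.RS.ret p lam := by
    intro p lam
    funext m
    unfold thin Q110.RS.ret
    by_cases hm : m.Prime
    · simp only [if_pos hm]
    · simp only [if_neg hm]
  have hL : ∀ u S, L u S = Q110.RS.gapLim (Q110.RS.lpw u) S := fun u S => rfl
  have hLam : ∀ p lam, Lam p lam = Q110.RS.Lam (Q110.RS.lpw (2 + lam)) (Q110.RS.ret p lam) := by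
    intro p lam
    rw [← hthin]
    rfl
  have hR : ∀ {Ω : Type} [MeasurableSpace Ω] {μ : Measure Ω} {S : Ω → Set ℕ} {φ : ℕ → ℝ},
      IsRandom μ S φ → Q110.RS.RandomSubset μ S φ := fun h => ⟨h.meas, h.indep, h.prob⟩
  have hlower : ∀ p lam : ℝ, 0 < p → p ≤ 1 → 0 < lam → lam < 1 →
      ENNReal.ofReal (Real.exp (-Real.eulerMascheroniConstant) * (2 + lam) / (p * (1 + Real.log (1 + lam)))) ≤
        Lam p lam := by
    intro p lam hp hp1 hl0 hl1
    have h1 := Q110.RS.Lam_prime_ge hp hp1 hl0.le hl1 (fun h => absurd h hl0.ne')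
    rw [hLam]
    refine le_trans (le_of_eq ?_) h1
    congr 1
    unfold Q110.RS.rho Q110.RS.M.om
    rw [if_neg hl0.ne', show 2 + lam - 1 = 1 + lam by ring]
    have : 0 < 1 + Real.log (1 + lam) := by
      have := Real.log_pos (show 1 < 1 + lam by linarith)
      linarith
    field_simp
  have hlower0 : ∀ p : ℝ, 0 < p → p < 1 →
      ENNReal.ofReal (2 * Real.exp (-Real.eulerMascheroniConstant) / Real.log (1 / (1 - p))) ≤ Lam p 0 := by
    intro p hp hp1
    have h1 := Q110.RS.Lam_prime_ge hp hp1.le le_rfl one_pos (fun _ => hp1)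
    rw [hLam]
    refine le_trans (le_of_eq ?_) h1
    congr 1
    unfold Q110.RS.rho Q110.RS.M.om
    rw [if_pos rfl, add_zero, show (2 : ℝ) - 1 = 1 by norm_num, Real.log_one, add_zero]
    have : Real.log (1 / (1 - p)) ≠ 0 := by
      have := Real.log_pos (show 1 < 1 / (1 - p) by rw [one_lt_div (by linarith)]; linarith)
      exact this.ne'
    field_simp
  have hall : ∀ lam : ℝ, 0 < lam → ∃ κ : ℝ, 0 < κ ∧ κ < 1 ∧ ∀ p : ℝ, 0 < p → ENNReal.ofReal (1 / (κ * p)) ≤ Lam p lam := by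
    intro lam hl
    obtain ⟨κ, h0, h1, h2⟩ := Pool.Agent.Q120.RSX.Lam_all (Pool.Agent.Q225.MG.mat Pool.Agent.Q120.MG.def_holds) hl
    refine ⟨κ, h0, h1, fun p hp => ?_⟩
    rw [hLam]
    exact h2 p hp
  refine ⟨?_, hlower0, hlower, hall, ?_, ?_, ?_, ?_, ?_, ?_, ?_⟩
  · intro p lam hp hp1 hl
    constructor
    · intro Ω _ μ S hS
      rw [hthin] at hS
      simp only [hL, hLam]
      exact Q110.RS.formula (Q110.RS.scale_lpw (show 0 < 2 + lam by linarith)) (hR hS)
        (Q110.RS.ret_nonneg hp.le lam) (Q110.RS.ret_le p lam) (Q110.RS.tsum_ret hp hp1 hl)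
    · intro Ω _ μ S hS
      have hS' : Q110.RS.RandomSubset μ S (Q110.RS.cram p lam) := hR hS
      simp only [hL, ← Q110.RS.Lam_cram hp hp1 hl]
      exact Q110.RS.formula (Q110.RS.scale_lpw (show 0 < 2 + lam by linarith)) hS'
        (Q110.RS.cram_nonneg hp.le lam) (Q110.RS.cram_le p lam) (Q110.RS.tsum_cram hp hp1 hl)
  · rintro p lam hp (⟨rfl, h⟩ | h1)
    · refine lt_of_lt_of_le ?_ (hlower0 p hp (by linarith))
      have hl := Real.log_pos (show 1 < 1 / (1 - p) by rw [one_lt_div (by linarith)]; linarith)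
      apply (ENNReal.ofReal_lt_ofReal_iff (by positivity)).2
      rw [div_lt_div_iff₀ hp hl, one_mul]
      exact Q110.RS.log_thin hp h
    · obtain ⟨κ, h2, h3, h4⟩ := hall lam h1
      refine lt_of_lt_of_le ?_ (h4 p hp)
      apply (ENNReal.ofReal_lt_ofReal_iff (by positivity)).2
      apply div_lt_div_of_pos_left one_pos (by positivity)
      nlinarith
  · have h1 := Q110.RS.Lam_one
    rw [hLam, add_zero, h1]
    unfold Q110.RS.gapLim Q110.RS.lpw
    congr 1
    funext n
    rw [Real.rpow_two]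
    rfl
  · intro p p' lam hpp
    rw [hLam, hLam]
    apply Q110.RS.Lam_anti (Q110.RS.lpw_nonneg _) (Q110.RS.ret_le p lam)
    intro m
    unfold Q110.RS.ret
    split_ifs
    · apply min_le_min le_rfl
      exact div_le_div_of_nonneg_right hpp (Real.rpow_nonneg (Q110.RS.log_nat_nonneg m) _)
    · exact le_rfl
  · intro p p' k hp hp1 hp' hp1' h
    rw [hLam, hLam, add_zero]
    exact Q110.RS.scale_zero hp hp1 hp' hp1' h
  · intro p p' lam k hp hp1 hp' hp1' hl h
    rw [hLam, hLam]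
    exact Q110.RS.scale_pos hp hp1 hp' hp1' hl h
  · intro p hp1
    have hprod : ∀ (C : ℝ) (n : ℕ), (∏ m ∈ Ioc n (n + ⌊C * (Real.log n) ^ ((2 : ℝ) + 0)⌋₊), (1 - thin p 0 m)) /
        (Real.log n) ^ ((2 : ℝ) + 0) =
        (1 - p) ^ (Nat.primeCounting (n + ⌊C * (Real.log n) ^ 2⌋₊) - Nat.primeCounting n) /
        (Real.log n) ^ 2 := by
      intro C n
      have h1 := Q110.RS.prod_thin p n ⌊C * (Real.log n) ^ 2⌋₊
      rw [min_eq_right hp1] at h1
      rw [add_zero, Real.rpow_two, ← h1, hthin]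
    unfold Lam
    simp only [hprod]
  · intro φ h0 h1
    obtain ⟨μ, hμ⟩ := Q110.RS.exists_random φ h0 h1
    exact ⟨μ, hμ.meas, hμ.indep, hμ.prob⟩

end Pool.Agent.Results.MP_ff81b6_nt.ThinnedPrimes
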